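import Pool.Agent.H38.SE.TarB

/-!
# se_modules, module BA: labels
-/

set_option linter.unusedVariables false

open Ordinal Order Set
open scoped ZFSet

namespace SE

open SF

theorem ba_lt (e g s Y Z A B : V) :
    g.rank < (lab e g s Y Z A B).rank ∧ s.rank < (lab e g s Y Z A B).rank ∧
    Y.rank < (lab e g s Y Z A B).rank ∧ Z.rank < (lab e g s Y Z A B).rank := by
  unfold lab
  have h1 := rank_lt_pair_right e (ZFSet.pair g (ZFSet.pair s (ZFSet.pair Y (ZFSet.pair Z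
    (ZFSet.pair A B)))))
  have h2 := rank_lt_pair_right g (ZFSet.pair s (ZFSet.pair Y (ZFSet.pair Z (ZFSet.pair A B))))
  have h3 := rank_lt_pair_right s (ZFSet.pair Y (ZFSet.pair Z (ZFSet.pair A B)))
  have h4 := rank_lt_pair_right Y (ZFSet.pair Z (ZFSet.pair A B))
  have k2 := rank_lt_pair_left g (ZFSet.pair s (ZFSet.pair Y (ZFSet.pair Z (ZFSet.pair A B))))
  have k3 := rank_lt_pair_left s (ZFSet.pair Y (ZFSet.pair Z (ZFSet.pair A B)))
  have k4 := rank_lt_pair_left Y (ZFSet.pair Z (ZFSet.pair A B))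
  have k5 := rank_lt_pair_left Z (ZFSet.pair A B)
  refine ⟨k2.trans h1, (k3.trans h2).trans h1, ((k4.trans h3).trans h2).trans h1, ?_⟩
  exact (((k5.trans h4).trans h3).trans h2).trans h1

theorem pf_BA : T_BA := by
  refine ⟨?_, ?_, ?_, ?_, ?_, ?_, ?_⟩
  · intro e g s Y Z A B
    simp only [lE, lG, lS, lY, lZ, lA, lB, lab, fst_pair, snd_pair, and_self]
  · intro L i hi
    have h := ba_lt (lE i) (lG i) (lS i) (lY i) (lZ i) (lA i) (lB i)
    rw [← hi.eq] at h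
    obtain ⟨h1, h2, h3, h4⟩ := h
    have h5 : ∀ j ∈ lS i, j.rank < i.rank := fun j hj => (ZFSet.rank_lt_of_mem hj).trans h2
    have h6 : i ∉ lS i := fun h => lt_irrefl _ (h5 i h)
    exact ⟨h1, h2, h3, h4, h5, h6, fun j hj hij => h6 (hi.tr j hj hij)⟩
  · intro L i j hi hj h1 h2 h3 h4 h5 h6 h7
    refine hi.eq.trans (Eq.trans ?_ hj.eq.symm)
    rw [h1, h2, h3, h4, h5, h6, h7]
  · intro L i hi
    exact absurd hi (ZFSet.notMem_empty i)
  · intro L ρ ρ' h h'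
    constructor
    · intro i hi
      rcases ZFSet.mem_union.1 hi with hi | hi
      · exact ⟨(h i hi).1, fun x hx => ZFSet.mem_union.2 (Or.inl ((h i hi).2 hx))⟩
      · exact ⟨(h' i hi).1, fun x hx => ZFSet.mem_union.2 (Or.inr ((h' i hi).2 hx))⟩
    · intro i hi
      rw [ZFSet.mem_inter] at hi
      exact ⟨(h i hi.1).1, fun x hx => ZFSet.mem_inter.2 ⟨(h i hi.1).2 hx, (h' i hi.2).2 hx⟩⟩
  · intro L S h i hi
    obtain ⟨ρ, hρ, hi⟩ := ZFSet.mem_sUnion.1 hi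
    exact ⟨(h ρ hρ i hi).1, fun x hx => ZFSet.mem_sUnion.2 ⟨ρ, hρ, (h ρ hρ i hi).2 hx⟩⟩
  · intro L ρ h
    have hS : ∀ i ∈ ρ, Cld L (lS i) := fun i hi j hj =>
      ⟨(h j ((h i hi).2 hj)).1, (h i hi).1.tr j hj⟩
    refine ⟨fun i hi => (h i hi).2, fun i hi => ⟨(h i hi).1, (h i hi).2, hS i hi, ?_, ?_⟩, ?_⟩
    · intro j hj
      rcases ZFSet.mem_insert_iff.1 hj with rfl | hj
      · exact ⟨(h j hi).1, fun x hx => ZFSet.mem_insert_iff.2 (Or.inr hx)⟩
      · exact ⟨(hS i hi j hj).1, fun x hx => ZFSet.mem_insert_iff.2 (Or.inr ((hS i hi j hj).2 hx))⟩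
    · intro x hx
      rcases ZFSet.mem_insert_iff.1 hx with rfl | hx
      · exact hi
      · exact (h i hi).2 hx
    · intro s hs hT i hi
      exact ⟨(h i (hs hi)).1, hT i hi⟩

end SE
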