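import Pool.Agent.H38.SE.TarB

/-!
# se_modules, module BBa: definability, first part
-/

set_option linter.unusedVariables false

open Ordinal Order Set
open scoped ZFSet

namespace SE

open SF

variable {f g h : (V → Prop) → (ℕ → V) → V}

theorem bba_rst : Tm ZFm (fun _ v => rst (v 0) (v 1)) :=
  (Tm.sep (R := fun _ v => fst (v 0) ∈ v 1) (Dfb.mem (Tm.fst (Tm.var 0)) (Tm.var 1))
    (Tm.var 1)).congr fun _ _ _ _ => rfl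

theorem bba_lS (hf : Tm ZFm f) : Tm ZFm (fun M v => lS (f M v)) :=
  Tm.fst (Tm.snd (Tm.snd hf))

theorem bba_lY (hf : Tm ZFm f) : Tm ZFm (fun M v => lY (f M v)) :=
  Tm.fst (Tm.snd (Tm.snd (Tm.snd hf)))

theorem bba_Qle : Dfb ZFm (fun _ v => Qle (v 0) (v 1)) := by
  have h1 : Dfb ZFm (fun _ v => fst (v 1) ⊆ fst (v 0)) :=
    Dfb.subset (Tm.fst (Tm.var 1)) (Tm.fst (Tm.var 0))
  have h2 : Dfb ZFm (fun _ v => snd (v 1) ⊆ snd (v 0)) :=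
    Dfb.subset (Tm.snd (Tm.var 1)) (Tm.snd (Tm.var 0))
  have h3 : Dfb ZFm (fun _ v => ∀ n ∈ dm (fst (v 0)), n ∉ dm (fst (v 1)) →
      ∀ l ∈ snd (v 1), app (fst (v 0)) n ≠ app l n) := by
    refine (Dfb.ball (R := fun _ v => v 0 ∉ dm (fst (v 2)) →
      ∀ l ∈ snd (v 2), app (fst (v 1)) (v 0) ≠ app l (v 0)) ktr_zfm
      (Tm.dm (Tm.fst (Tm.var 0))) ?_).congr fun M k v hv => Iff.rfl
    refine (Dfb.mem (Tm.var 0) (Tm.dm (Tm.fst (Tm.var 2)))).not.imp ?_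
    refine (Dfb.ball (R := fun _ v => app (fst (v 2)) (v 1) ≠ app (v 0) (v 1)) ktr_zfm
      (Tm.snd (Tm.var 2)) ?_).congr fun M k v hv => Iff.rfl
    exact (Dfb.eq (Tm.app (Tm.fst (Tm.var 2)) (Tm.var 1)) (Tm.app (Tm.var 0) (Tm.var 1))).not
  refine (h1.and (h2.and h3)).congr fun M k v hv => ?_
  exact ⟨fun h => ⟨h.1, h.2.1, h.2.2⟩, fun h => ⟨h.s, h.f, h.d⟩⟩

theorem bba_Le : Dfb ZFm (fun _ v => Le (v 0) (v 1)) := by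
  refine (Dfb.ball (R := fun _ v => v 0 ∈ dm (v 1) ∧ Qle (app (v 1) (v 0)) (app (v 2) (v 0)))
    ktr_zfm (Tm.dm (Tm.var 1)) ?_).congr fun M k v hv => Iff.rfl
  exact (Dfb.mem (Tm.var 0) (Tm.dm (Tm.var 1))).and
    (Dfb.at2 (P := fun _ x y => Qle x y) bba_Qle (Tm.app (Tm.var 1) (Tm.var 0))
      (Tm.app (Tm.var 2) (Tm.var 0)))

theorem bba_Qs (hAB : T_AB) (hAF : T_AF) : Tm ZFm (fun _ v => Qs (v 0)) :=
  Tm.prod hAF.2.2.1 hAB.2.1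

theorem bba_Pos (hAA : T_AA) (hAB : T_AB) (hAF : T_AF) : Tm ZFm (fun _ v => Pos (v 0) (v 1)) := by
  have hhf : Tm ZFm (fun _ _ => hf) := hAA.2.2.2.2.2.2.2.1
  have hsq : Tm ZFm (fun _ _ => sq) := hAF.2.2.1
  refine (Tm.sep (R := fun _ v => Svl (v 0) ∧ ∀ i ∈ dm (v 0), ∀ n ∈ dm (fst (app (v 0) i)),
    ∃ b ∈ sq, ∃ j ∈ hf, dm b = n ∧ app (fst (app (v 0) i)) n = ZFSet.pair b j ∧
      ZFSet.pair (rst (lS i) (v 0)) b ∈ lY i) ?_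
    (Tm.at1 (F := fun _ x => Fs x) hAB.2.1 (Tm.prod (Tm.var 1) (bba_Qs hAB hAF)))).congr
    fun _ _ _ _ => rfl
  refine (Dfb.svl (Tm.var 0)).and ?_
  refine (Dfb.ball (R := fun _ v => ∀ n ∈ dm (fst (app (v 1) (v 0))),
    ∃ b ∈ sq, ∃ j ∈ hf, dm b = n ∧ app (fst (app (v 1) (v 0))) n = ZFSet.pair b j ∧
      ZFSet.pair (rst (lS (v 0)) (v 1)) b ∈ lY (v 0)) ktr_zfm (Tm.dm (Tm.var 0)) ?_).congr
    fun M k v hv => Iff.rfl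
  refine (Dfb.ball (R := fun _ v =>
    ∃ b ∈ sq, ∃ j ∈ hf, dm b = v 0 ∧ app (fst (app (v 2) (v 1))) (v 0) = ZFSet.pair b j ∧
      ZFSet.pair (rst (lS (v 1)) (v 2)) b ∈ lY (v 1)) ktr_zfm
      (Tm.dm (Tm.fst (Tm.app (Tm.var 1) (Tm.var 0)))) ?_).congr
    fun M k v hv => Iff.rfl
  refine (Dfb.bex (R := fun _ v =>
    ∃ j ∈ hf, dm (v 0) = v 1 ∧ app (fst (app (v 3) (v 2))) (v 1) = ZFSet.pair (v 0) j ∧
      ZFSet.pair (rst (lS (v 2)) (v 3)) (v 0) ∈ lY (v 2)) ktr_zfm hsq ?_).congr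
    fun M k v hv => Iff.rfl
  refine (Dfb.bex (R := fun _ v =>
    dm (v 1) = v 2 ∧ app (fst (app (v 4) (v 3))) (v 2) = ZFSet.pair (v 1) (v 0) ∧
      ZFSet.pair (rst (lS (v 3)) (v 4)) (v 1) ∈ lY (v 3)) ktr_zfm hhf ?_).congr
    fun M k v hv => Iff.rfl
  refine (Dfb.eq (Tm.dm (Tm.var 1)) (Tm.var 2)).and ((Dfb.eq
    (Tm.app (Tm.fst (Tm.app (Tm.var 4) (Tm.var 3))) (Tm.var 2))
    (Tm.pair (Tm.var 1) (Tm.var 0))).and ?_)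
  exact Dfb.mem (Tm.pair (Tm.at2 (F := fun _ x y => rst x y) bba_rst (bba_lS (Tm.var 3))
    (Tm.var 4)) (Tm.var 1)) (bba_lY (Tm.var 3))

theorem pf_BBa (hAA : T_AA) (hAB : T_AB) (hAF : T_AF) : T_BBa := by
  have hPos := bba_Pos hAA hAB hAF
  refine ⟨bba_rst, bba_Qs hAB hAF, Tm.fst (Tm.var 0), Tm.fst (Tm.snd (Tm.var 0)),
    bba_lS (Tm.var 0), bba_lY (Tm.var 0), Tm.fst (Tm.snd (Tm.snd (Tm.snd (Tm.snd (Tm.var 0))))),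
    Tm.fst (Tm.snd (Tm.snd (Tm.snd (Tm.snd (Tm.snd (Tm.var 0)))))),
    Tm.snd (Tm.snd (Tm.snd (Tm.snd (Tm.snd (Tm.snd (Tm.var 0)))))),
    Tm.pair (Tm.var 0) (Tm.pair (Tm.var 1) (Tm.pair (Tm.var 2) (Tm.pair (Tm.var 3)
      (Tm.pair (Tm.var 4) (Tm.pair (Tm.var 5) (Tm.var 6)))))),
    bba_Qle, bba_Le, hPos, ?_, ?_⟩
  · exact (Tm.sep (R := fun _ v => Le (fst (v 0)) (snd (v 0)))
      (Dfb.at2 (P := fun _ x y => Le x y) bba_Le (Tm.fst (Tm.var 0)) (Tm.snd (Tm.var 0)))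
      (Tm.prod hPos hPos)).congr fun _ _ _ _ => rfl
  · exact (Tm.resS (g := fun M v => sel (v 0 = v 2) (v 3) (app (v 1) (v 0)))
      (Tm.ins (Tm.var 1) (Tm.dm (Tm.var 0)))
      (Tm.sel (Dfb.eq (Tm.var 0) (Tm.var 2)) (Tm.var 3) (Tm.app (Tm.var 1) (Tm.var 0)))).congr
      fun _ _ _ _ => rfl

end SE
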