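import Pool.Agent.H9.SE.TarL

/-!
# se_modules, module LA2: definability of the chosen Cohen reals
-/

set_option linter.unusedVariables false

open Ordinal Order Set
open scoped ZFSet

namespace SE

open SF CAA

section la2

variable {f g h : (V → Prop) → (ℕ → V) → V}

theorem la2_ctm (hf1 : Tm ZFm f) (hg : Tm ZFm g) :
    Dfb ZFm (fun M v => Ctbl (· ∈ f M v) (g M v)) := by
  refine Dfb.at2 (P := fun _ x y => Ctbl (· ∈ x) y) ?_ hf1 hg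
  refine (Dfb.eq (Tm.var 1) Tm.empty).or ?_
  exact (Dfb.bex (R := fun _ v => Onto (v 0) om (v 2)) ktr_zfm (Tm.var 0)
    (Dfb.onto (Tm.var 0) Tm.om (Tm.var 2))).congr fun M k v hv => Iff.rfl

theorem la2_coh (hAF : T_AF) (hAI : T_AI) (hf1 : Tm ZFm f) (hg : Tm ZFm g) :
    Dfb ZFm (fun M v => Coh (f M v) (g M v)) := by
  refine Dfb.at2 (P := fun _ x y => Coh x y) ?_ hf1 hg
  have hsq : Tm ZFm (fun _ _ => sq) := hAF.2.2.1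
  have h1 : Dfb ZFm (fun _ v => ∀ s ∈ sq, ∃ t ∈ v 0, s ⊆ t) := by
    refine (Dfb.ball (R := fun _ v => ∃ t ∈ v 1, v 0 ⊆ t) ktr_zfm hsq ?_).congr
      fun M k v hv => Iff.rfl
    exact (Dfb.bex (R := fun _ v => v 1 ⊆ v 0) ktr_zfm (Tm.var 1)
      (Dfb.subset (Tm.var 1) (Tm.var 0))).congr fun M k v hv => Iff.rfl
  have h2 : Dfb ZFm (fun _ v => ∃ t ∈ v 0, t ⊆ v 2) :=
    (Dfb.bex (R := fun _ v => v 0 ⊆ v 3) ktr_zfm (Tm.var 0)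
      (Dfb.subset (Tm.var 0) (Tm.var 3))).congr fun M k v hv => Iff.rfl
  have h3 : Dfb ZFm (fun _ v => Rl (v 1)) := Dfb.at1 (P := fun _ x => Rl x) hAI.1 (Tm.var 1)
  exact h3.and ((Dfb.ball ktr_zfm (Tm.var 0)
    ((Dfb.subset (Tm.var 0) hsq).imp (h1.imp h2))).congr fun M k v hv => Iff.rfl)

theorem la2_pp {ix : V → V → V} (hix : Tm ZFm (fun _ v => ix (v 0) (v 1))) (hf1 : Tm ZFm f)
    (hg : Tm ZFm g) : Tm ZFm (fun M v => ix ∅ (ZFSet.pair (f M v) (g M v))) :=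
  Tm.at2 (F := fun _ x y => ix x y) hix Tm.empty (Tm.pair hf1 hg)

theorem la2_lst0 (hAF : T_AF) (hAI : T_AI) {ix : V → V → V}
    (hix : Tm ZFm (fun _ v => ix (v 0) (v 1))) :
    Dfb ZFm (fun _ v => Lst ix (v 0) (v 1) (v 2) (v 3)) := by
  have hc : ∀ i j l : ℕ, Dfb ZFm (fun _ v => Coh (v i) (ix ∅ (ZFSet.pair (v j) (v l)))) :=
    fun i j l => la2_coh hAF hAI (Tm.var i) (la2_pp hix (Tm.var j) (Tm.var l))
  have m1 : Dfb ZFm (fun _ v => ∀ b ∈ v 1, ∀ u ∈ insert b b, ∀ w ∈ insert b b,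
      ¬ Coh (v 0) (ix ∅ (ZFSet.pair u w))) := by
    refine (Dfb.ball (R := fun _ v => ∀ u ∈ insert (v 0) (v 0), ∀ w ∈ insert (v 0) (v 0),
      ¬ Coh (v 1) (ix ∅ (ZFSet.pair u w))) ktr_zfm (Tm.var 1) ?_).congr fun M k v hv => Iff.rfl
    refine (Dfb.ball (R := fun _ v => ∀ w ∈ insert (v 1) (v 1),
      ¬ Coh (v 2) (ix ∅ (ZFSet.pair (v 0) w))) ktr_zfm (Tm.ins (Tm.var 0) (Tm.var 0)) ?_).congr
      fun M k v hv => Iff.rfl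
    exact (Dfb.ball (R := fun _ v => ¬ Coh (v 3) (ix ∅ (ZFSet.pair (v 1) (v 0)))) ktr_zfm
      (Tm.ins (Tm.var 1) (Tm.var 1)) (hc 3 1 0).not).congr fun M k v hv => Iff.rfl
  have m2 : Dfb ZFm (fun _ v => ∀ u ∈ v 2, ∀ w ∈ insert (v 1) (v 1),
      ¬ Coh (v 0) (ix ∅ (ZFSet.pair u w))) := by
    refine (Dfb.ball (R := fun _ v => ∀ w ∈ insert (v 2) (v 2),
      ¬ Coh (v 1) (ix ∅ (ZFSet.pair (v 0) w))) ktr_zfm (Tm.var 2) ?_).congr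
      fun M k v hv => Iff.rfl
    exact (Dfb.ball (R := fun _ v => ¬ Coh (v 2) (ix ∅ (ZFSet.pair (v 1) (v 0)))) ktr_zfm
      (Tm.ins (Tm.var 2) (Tm.var 2)) (hc 2 1 0).not).congr fun M k v hv => Iff.rfl
  have m3 : Dfb ZFm (fun _ v => ∀ w ∈ v 3, ¬ Coh (v 0) (ix ∅ (ZFSet.pair (v 2) w))) :=
    (Dfb.ball (R := fun _ v => ¬ Coh (v 1) (ix ∅ (ZFSet.pair (v 3) (v 0)))) ktr_zfm
      (Tm.var 3) (hc 1 3 0).not).congr fun M k v hv => Iff.rfl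
  refine ((Dfb.subset (Tm.var 2) (Tm.var 1)).and ((Dfb.subset (Tm.var 3) (Tm.var 1)).and
    ((hc 0 2 3).and (m1.and (m2.and m3))))).congr fun M k v hv => ?_
  exact ⟨fun ⟨a, b, c, d, e, i⟩ => ⟨a, b, c, d, e, i⟩, fun h => ⟨h.r, h.s, h.c, h.m1, h.m2, h.m3⟩⟩

/-- `Ad` for sets -/
structure la2_AdS (M : V → Prop) (e : V) : Prop where
  z : ZFm (· ∈ LAS ∅ e)
  a : ∀ x ∈ LAS ∅ e, Ctbl (· ∈ LAS ∅ e) x
  c : ∃ b, M b ∧ IsOrd b ∧ Ctbl (· ∈ LAS ∅ b) (LAS ∅ e)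

theorem la2_adS_iff (M : V → Prop) (η : Ordinal.{0}) : la2_AdS M η.toZFSet ↔ Ad M η := by
  constructor
  · rintro ⟨h1, h2, b, hb, ⟨β, rfl⟩, h3⟩
    rw [LAS_ord] at h1 h2
    rw [LAS_ord, LAS_ord] at h3
    exact ⟨h1, h2, β, hb, h3⟩
  · rintro ⟨h1, h2, β, hβ, h3⟩
    refine ⟨?_, ?_, β.toZFSet, hβ, ⟨β, rfl⟩, ?_⟩
    · rw [LAS_ord]
      exact h1
    · rw [LAS_ord]
      exact h2
    · rw [LAS_ord, LAS_ord]
      exact h3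

theorem la2_adS (hf1 : Tm ZFm f) : Dfb ZFm (fun M v => la2_AdS M (f M v)) := by
  refine Dfb.at1 (P := fun M x => la2_AdS M x) ?_ hf1
  have hl : ∀ i : ℕ, Tm ZFm (fun _ v => LAS ∅ (v i)) := fun i => Tm.LAS Tm.empty (Tm.var i)
  have h1 : Dfb ZFm (fun _ v => ∀ x ∈ LAS ∅ (v 0), Ctbl (· ∈ LAS ∅ (v 0)) x) :=
    (Dfb.ball (R := fun _ v => Ctbl (· ∈ LAS ∅ (v 1)) (v 0)) ktr_zfm (hl 0)
      (la2_ctm (hl 1) (Tm.var 0))).congr fun M k v hv => Iff.rfl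
  have h2 : Dfb ZFm (fun M v => ∃ b, M b ∧ IsOrd b ∧ Ctbl (· ∈ LAS ∅ b) (LAS ∅ (v 0))) :=
    (Dfb.ex (R := fun _ v => IsOrd (v 0) ∧ Ctbl (· ∈ LAS ∅ (v 0)) (LAS ∅ (v 1)))
      ((Dfb.isOrd (Tm.var 0)).and (la2_ctm (hl 0) (hl 1)))).congr fun M k v hv => Iff.rfl
  refine ((Dfb.zfm (hl 0)).and (h1.and h2)).congr fun M k v hv => ?_
  exact ⟨fun ⟨a, b, c⟩ => ⟨a, b, c⟩, fun h => ⟨h.z, h.a, h.c⟩⟩

theorem la2_ilf (hAF : T_AF) (hAI : T_AI) {ix : V → V → V}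
    (hix : Tm ZFm (fun _ v => ix (v 0) (v 1))) : Dfb ZFm (ILf ix) := by
  have h0 : Dfb ZFm (fun _ v => Lst ix (LAS ∅ (v 3)) (v 2) (v 1) (v 0)) :=
    (la2_lst0 hAF hAI hix).comp (args [fun _ v => LAS ∅ (v 3), fun _ v => v 2, fun _ v => v 1,
      fun _ v => v 0]) (tm_args _ (by
        intro a ha
        simp only [List.mem_cons, List.not_mem_nil, or_false] at ha
        rcases ha with rfl | rfl | rfl | rfl
        · exact Tm.LAS Tm.empty (Tm.var 3)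
        · exact Tm.var 2
        · exact Tm.var 1
        · exact Tm.var 0))
  have h1 : Dfb ZFm (fun M v => (IsOrd (v 0) ∧ IsOrd (v 1) ∧ IsOrd (v 2) ∧ IsOrd (v 3)) ∧
      la2_AdS M (v 3) ∧ Lst ix (LAS ∅ (v 3)) (v 2) (v 1) (v 0) ∧
      v 4 = ix ∅ (ZFSet.pair (v 1) (v 0))) :=
    ((Dfb.isOrd (Tm.var 0)).and ((Dfb.isOrd (Tm.var 1)).and ((Dfb.isOrd (Tm.var 2)).and
      (Dfb.isOrd (Tm.var 3))))).and ((la2_adS (Tm.var 3)).and (h0.and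
        (Dfb.eq (Tm.var 4) (la2_pp hix (Tm.var 1) (Tm.var 0)))))
  refine h1.ex.ex.ex.ex.congr fun M k v hv => ?_
  constructor
  · rintro ⟨e, he, b, hb, r, hr, s, hs, ⟨hs1, hr1, hb1, he1⟩, hA, hL, hv0⟩
    simp only [cons_zero, cons_succ] at hs1 hr1 hb1 he1 hA hL hv0
    obtain ⟨ξ, rfl⟩ := hs1
    obtain ⟨ρ, rfl⟩ := hr1
    obtain ⟨β, rfl⟩ := hb1
    obtain ⟨η, rfl⟩ := he1
    have hA' : la2_AdS M η.toZFSet := hA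
    have hL' : Lst ix (LAS ∅ η.toZFSet) β.toZFSet ρ.toZFSet ξ.toZFSet := hL
    have hv' : v 0 = ix ∅ (ZFSet.pair ρ.toZFSet ξ.toZFSet) := hv0
    rw [la2_adS_iff] at hA'
    rw [LAS_ord] at hL'
    exact ⟨η, β, ρ, ξ, he, hb, hr, hs, hA', hL', hv'⟩
  · rintro ⟨η, β, ρ, ξ, he, hb, hr, hs, hA, hL, hv0⟩
    refine ⟨η.toZFSet, he, β.toZFSet, hb, ρ.toZFSet, hr, ξ.toZFSet, hs,
      ⟨⟨ξ, rfl⟩, ⟨ρ, rfl⟩, ⟨β, rfl⟩, ⟨η, rfl⟩⟩, ?_, ?_, hv0⟩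
    · exact (la2_adS_iff M η).2 hA
    · show Lst ix (LAS ∅ η.toZFSet) β.toZFSet ρ.toZFSet ξ.toZFSet
      rw [LAS_ord]
      exact hL

end la2

theorem t_la2 (hAF : T_AF) (hAI : T_AI) : T_LA2 := fun ix hix =>
  ⟨la2_coh hAF hAI (Tm.var 0) (Tm.var 1), la2_lst0 hAF hAI hix.1, la2_ilf hAF hAI hix.1⟩

end SE
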