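import Pool.Agent.H9.SE.TarL
import Pool.Agent.H68.SF.LBas

/-!
# se_modules, module LA4: the least triple in a level
-/

set_option linter.unusedVariables false

open Ordinal Order Set
open scoped ZFSet

namespace SE

open SF CAA

theorem la4_lim {θ : Ordinal.{0}} (k : ZFm (· ∈ LA ∅ θ))
    (ho : ∀ α : Ordinal.{0}, α.toZFSet ∈ LA ∅ θ ↔ α < θ) : IsSuccLimit θ := by
  have h0 : (ω : Ordinal.{0}) < θ := (ho ω).1 k.inf
  refine ⟨?_, ?_⟩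
  · intro hm
    exact absurd (hm (zero_le : (0 : Ordinal.{0}) ≤ θ)) (not_le.2 (Ordinal.omega0_pos.trans h0))
  · intro a ha
    have h1 : a < θ := ha.lt
    have h2 := (ho a).2 h1
    have h3 : (Order.succ a).toZFSet ∈ LA ∅ θ := by
      have e : (Order.succ a).toZFSet = insert a.toZFSet a.toZFSet := by
        rw [Order.succ_eq_add_one, Ordinal.toZFSet_add_one]
      rw [e, ZFSet.insert_eq]
      have h4 : ({a.toZFSet} : V) ∈ LA ∅ θ := by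
        have := k.pair _ _ h2 h2
        rwa [ZFSet.pair_eq_singleton] at this
      have h5 := k.union _ (k.pair _ _ h4 h2)
      rwa [ZFSet.sUnion_pair] at h5
    have h4 := (ho _).1 h3
    exact ha.2 (Order.lt_succ a) h4

theorem t_la4 (h1 : T_LA1) (h3 : T_LA3) : T_LA4 := by
  intro ix hix θ k ho η hη hc
  obtain ⟨l, hl, hcoh⟩ := h1 (· ∈ LA ∅ θ) k _ hc
  have hlim := la4_lim k ho
  obtain ⟨ρ0, hρ0, hl0⟩ : ∃ ρ0 < θ, l ∈ LA ∅ ρ0 := (mem_Lh_limit hlim).1 hl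
  obtain ⟨ρ, ξ, hρ, hξ, e⟩ := hix.2 (· ∈ LA ∅ θ) k ∅ k.mempty l ⟨ρ0, (ho _).2 hρ0, hl0⟩
  rw [← e] at hcoh
  obtain ⟨β', ρ', ξ', hb, hr, hx, hL⟩ :=
    (h3 ix (LA ∅ η)).1 ρ ξ θ ((ho _).1 hρ) ((ho _).1 hξ) hcoh
  refine ⟨β', ρ', ξ', hb, hr, hx, hL, ?_⟩
  exact hix.1.1 (· ∈ LA ∅ θ) k (cons ∅ fun _ => ZFSet.pair ρ'.toZFSet ξ'.toZFSet)
    (In.cons (fun _ => k.mpair ((ho _).2 hr) ((ho _).2 hx)) k.mempty)

end SE
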